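import Pool.Agent.H721R3.SOS.Rolle

/-!
Positive zeros of `c g ^ 2 + (a X ^ α + b X ^ (α + γ)) q(X ^ γ) ^ 2`.
-/

set_option autoImplicit false

namespace H721SOS

open Polynomial

/-- the polynomial -/
noncomputable def ff (c a b : ℝ) (α γ : ℕ) (g q : ℝ[X]) : ℝ[X] :=
  C c * g ^ 2 + (C a * X ^ α + C b * X ^ (α + γ)) * (q.comp (X ^ γ)) ^ 2

theorem ff_eval (c a b : ℝ) (α γ : ℕ) (g q : ℝ[X]) (x : ℝ) :
    (ff c a b α γ g q).eval x =
      c * g.eval x ^ 2 + x ^ α * ((a + b * x ^ γ) * (q.eval (x ^ γ)) ^ 2) := by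
  unfold ff
  simp only [eval_add, eval_mul, eval_C, eval_pow, eval_X, eval_comp]
  rw [pow_add]
  ring

theorem bridge (g q : ℝ[X]) (α γ : ℕ) (hγ : 0 < γ) (ε a b x : ℝ) (hx : 0 < x) :
    (∑ i ∈ g.support, g.coeff i * (x ^ γ) ^ (((i : ℝ) - α / 2) / γ)) +
      (x ^ γ) ^ (0 : ℝ) * (a + b * x ^ γ) ^ (1 / 2 : ℝ) * (C (-ε) * q).eval (x ^ γ) =
    x ^ (-((α : ℝ) / 2)) * (g.eval x -
      ε * (x ^ ((α : ℝ) / 2) * (a + b * x ^ γ) ^ (1 / 2 : ℝ) * q.eval (x ^ γ))) := by
  have hγ' : (γ : ℝ) ≠ 0 := by exact_mod_cast hγ.ne'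
  have h1 : ∀ i : ℕ, (x ^ γ) ^ (((i : ℝ) - α / 2) / γ) = x ^ (-((α : ℝ) / 2)) * x ^ i := by
    intro i
    rw [← Real.rpow_natCast x γ, ← Real.rpow_mul hx.le, mul_div_cancel₀ _ hγ',
      ← Real.rpow_natCast x i, ← Real.rpow_add hx]
    congr 1; ring
  have h2 : x ^ (-((α : ℝ) / 2)) * x ^ ((α : ℝ) / 2) = 1 := by
    rw [← Real.rpow_add hx]; simp
  rw [Real.rpow_zero, one_mul, mul_sub, eval_mul, eval_C]
  congr 1
  · rw [eval_eq_sum, Polynomial.sum, Finset.mul_sum]
    refine Finset.sum_congr rfl fun i _ => ?_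
    rw [h1]; ring
  · linear_combination (-ε * (a + b * x ^ γ) ^ (1 / 2 : ℝ) * q.eval (x ^ γ)) * (1 - h2)

theorem bound_eps (c a b : ℝ) (hc : c ≠ 0) (α γ : ℕ) (hγ : 0 < γ) (g q : ℝ[X])
    (hf : ff (c) (-(c * a)) (-(c * b)) α γ g q ≠ 0) (ε : ℝ) (hε : ε ^ 2 = 1) (Z : Finset ℝ)
    (hZ : ∀ z ∈ Z, 0 < z ∧ 0 < a + b * z ^ γ ∧ g.eval z =
      ε * (z ^ ((α : ℝ) / 2) * (a + b * z ^ γ) ^ (1 / 2 : ℝ) * q.eval (z ^ γ))) :
    Z.card ≤ 2 * g.support.card + q.natDegree := by
  by_contra hcon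
  push Not at hcon
  have hinj : ∀ x ∈ Z, ∀ y ∈ Z, x ^ γ = y ^ γ → x = y := by
    intro x hx y hy h
    exact (pow_left_inj₀ (hZ x hx).1.le (hZ y hy).1.le hγ.ne').1 h
  have hcard : (Z.image fun z => z ^ γ).card = Z.card :=
    Finset.card_image_of_injOn fun x hx y hy h => hinj x hx y hy h
  have hvan := zeros_bound a b g.support.card q.natDegree ℕ g.support g.coeff
    (fun i => ((i : ℝ) - α / 2) / γ) 0 (1 / 2) (C (-ε) * q) rfl (natDegree_C_mul_le _ _)
    (Z.image fun z => z ^ γ) (by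
      intro y hy
      obtain ⟨z, hz, rfl⟩ := Finset.mem_image.1 hy
      obtain ⟨h1, h2, h3⟩ := hZ z hz
      refine ⟨⟨pow_pos h1 γ, h2⟩, ?_⟩
      rw [bridge g q α γ hγ ε a b z h1, h3, sub_self, mul_zero]) (by rw [hcard]; exact hcon)
  obtain ⟨z0, hz0⟩ : Z.Nonempty := Finset.card_pos.1 (by omega)
  have hz := hZ z0 hz0
  -- all points of the domain give zeros
  have hroot : ∀ x : ℝ, 0 < x → 0 < a + b * x ^ γ →
      (ff c (-(c * a)) (-(c * b)) α γ g q).IsRoot x := by
    intro x hx hxd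
    have h1 := hvan (x ^ γ) ⟨pow_pos hx γ, hxd⟩
    rw [bridge g q α γ hγ ε a b x hx] at h1
    have h2 := (mul_eq_zero.1 h1).resolve_left (Real.rpow_pos_of_pos hx _).ne'
    have h3 : g.eval x =
        ε * (x ^ ((α : ℝ) / 2) * (a + b * x ^ γ) ^ (1 / 2 : ℝ) * q.eval (x ^ γ)) := by linarith
    rw [IsRoot.def, ff_eval, h3]
    have h4 : (x ^ ((α : ℝ) / 2)) ^ 2 = x ^ α := by
      rw [← Real.rpow_natCast, ← Real.rpow_mul hx.le]
      have : (α : ℝ) / 2 * (2 : ℕ) = α := by push_cast; ring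
      rw [this, Real.rpow_natCast]
    have h5 : ((a + b * x ^ γ) ^ (1 / 2 : ℝ)) ^ 2 = a + b * x ^ γ := by
      rw [← Real.rpow_natCast, ← Real.rpow_mul hxd.le]
      norm_num
    rw [mul_pow, mul_pow, mul_pow, hε, h4, h5]
    ring
  apply hf
  have hinf : (Set.Infinite {x : ℝ | 0 < x ∧ 0 < a + b * x ^ γ}) := by
    rcases le_total 0 b with hb | hb
    · refine (Set.Ici_infinite z0).mono ?_
      intro x hx
      have hx' : z0 ≤ x := hx
      refine ⟨hz.1.trans_le hx', ?_⟩
      have : z0 ^ γ ≤ x ^ γ := pow_le_pow_left₀ hz.1.le hx' γ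
      nlinarith [hz.2.1, mul_le_mul_of_nonneg_left this hb]
    · refine (Set.Ioc_infinite hz.1).mono ?_
      intro x hx
      refine ⟨hx.1, ?_⟩
      have : x ^ γ ≤ z0 ^ γ := pow_le_pow_left₀ hx.1.le hx.2 γ
      nlinarith [hz.2.1, mul_le_mul_of_nonpos_left this hb]
  exact eq_zero_of_infinite_isRoot _ (hinf.mono fun x hx => hroot x hx.1 hx.2)

theorem bound_sq (g : ℝ[X]) (hg : g ≠ 0) (Z : Finset ℝ) (hZ : ∀ z ∈ Z, 0 < z ∧ g.eval z = 0) :
    Z.card ≤ 2 * g.support.card := by
  by_contra hcon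
  push Not at hcon
  have hev : ∀ z : ℝ, 0 < z → (∑ i ∈ g.support, g.coeff i * z ^ ((i : ℕ) : ℝ)) +
      z ^ (0 : ℝ) * (1 + 0 * z) ^ (0 : ℝ) * (0 : ℝ[X]).eval z = g.eval z := by
    intro z _
    rw [eval_zero, mul_zero, add_zero, eval_eq_sum, Polynomial.sum]
    refine Finset.sum_congr rfl fun i _ => ?_
    rw [Real.rpow_natCast]
  have hvan := zeros_bound 1 0 g.support.card 0 ℕ g.support g.coeff (fun i => (i : ℝ)) 0 0 0 rfl
    (by simp) Z (fun z hz => ⟨⟨(hZ z hz).1, by simp⟩, by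
      rw [hev z (hZ z hz).1]; exact (hZ z hz).2⟩) (by omega)
  apply hg
  refine eq_zero_of_infinite_isRoot _ ((Set.Ioi_infinite (0 : ℝ)).mono ?_)
  intro x hx
  have hx' : (0 : ℝ) < x := hx
  have := hvan x ⟨hx', by simp⟩
  rw [hev x hx'] at this
  exact this

theorem pos_bound (c a b : ℝ) (α γ : ℕ) (hγ : 0 < γ) (g q : ℝ[X]) (hf : ff c a b α γ g q ≠ 0)
    (Z : Finset ℝ) (hZ : ∀ z ∈ Z, 0 < z ∧ (ff c a b α γ g q).eval z = 0) :
    Z.card ≤ 4 * g.support.card + 3 * q.natDegree + 1 := by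
  classical
  by_cases hR : (C a + C b * X) * q = 0
  · -- the second summand vanishes
    have hfv : ∀ x, (ff c a b α γ g q).eval x = c * g.eval x ^ 2 := by
      intro x
      rw [ff_eval]
      have := congrArg (fun p => eval (x ^ γ) p) hR
      simp only [eval_mul, eval_add, eval_C, eval_X, eval_zero] at this
      have h2 : (a + b * x ^ γ) * q.eval (x ^ γ) ^ 2 = 0 := by
        rw [sq, ← mul_assoc, this, zero_mul]
      rw [h2, mul_zero, add_zero]
    have hc : c ≠ 0 := by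
      rintro rfl
      apply hf
      apply Polynomial.funext
      intro x
      rw [hfv]; simp
    have hg : g ≠ 0 := by
      rintro rfl
      apply hf
      apply Polynomial.funext
      intro x
      rw [hfv]; simp
    have := bound_sq g hg Z (fun z hz => ⟨(hZ z hz).1, by
      have h := (hZ z hz).2
      rw [hfv] at h
      simpa [hc] using h⟩)
    omega
  · have hZ0 : (Z.filter fun z => (a + b * z ^ γ) * q.eval (z ^ γ) = 0).card ≤
        1 + q.natDegree := by
      have h1 : ((Z.filter fun z => (a + b * z ^ γ) * q.eval (z ^ γ) = 0).image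
          fun z => z ^ γ) ⊆ ((C a + C b * X) * q).roots.toFinset := by
        intro y hy
        obtain ⟨z, hz, rfl⟩ := Finset.mem_image.1 hy
        rw [Multiset.mem_toFinset, mem_roots hR, IsRoot.def]
        simp only [eval_mul, eval_add, eval_C, eval_X]
        exact (Finset.mem_filter.1 hz).2
      have h2 : ((Z.filter fun z => (a + b * z ^ γ) * q.eval (z ^ γ) = 0).image
          fun z => z ^ γ).card = (Z.filter fun z => (a + b * z ^ γ) * q.eval (z ^ γ) = 0).card := by
        apply Finset.card_image_of_injOn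
        intro x hx y hy h
        have hx' := (Finset.mem_filter.1 hx).1
        have hy' := (Finset.mem_filter.1 hy).1
        exact (pow_left_inj₀ (hZ x hx').1.le (hZ y hy').1.le hγ.ne').1 h
      rw [← h2]
      refine (Finset.card_le_card h1).trans ((Multiset.toFinset_card_le _).trans
        ((card_roots' _).trans ((natDegree_mul_le).trans ?_)))
      have : (C a + C b * X : ℝ[X]).natDegree ≤ 1 := by
        refine (natDegree_add_le _ _).trans (max_le (by simp) ?_)
        exact (natDegree_C_mul_le _ _).trans (by simp)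
      omega
    by_cases hc : c = 0
    · have : Z.filter (fun z => (a + b * z ^ γ) * q.eval (z ^ γ) = 0) = Z := by
        apply Finset.filter_true_of_mem
        intro z hz
        obtain ⟨h1, h2⟩ := hZ z hz
        rw [ff_eval, hc, zero_mul, zero_add] at h2
        have h3 := (mul_eq_zero.1 h2).resolve_left (pow_pos h1 α).ne'
        rcases mul_eq_zero.1 h3 with h | h
        · rw [h, zero_mul]
        · rw [pow_eq_zero_iff two_ne_zero] at h
          rw [h, mul_zero]
      rw [this] at hZ0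
      omega
    · obtain ⟨a', ha'⟩ : ∃ a', a = -(c * a') := ⟨-a / c, by field_simp⟩
      obtain ⟨b', hb'⟩ : ∃ b', b = -(c * b') := ⟨-b / c, by field_simp⟩
      have hsplit : ∀ ε : ℝ, ε ^ 2 = 1 → (Z.filter fun z => 0 < a' + b' * z ^ γ ∧ g.eval z =
          ε * (z ^ ((α : ℝ) / 2) * (a' + b' * z ^ γ) ^ (1 / 2 : ℝ) * q.eval (z ^ γ))).card ≤
          2 * g.support.card + q.natDegree := by
        intro ε hε
        apply bound_eps c a' b' hc α γ hγ g q (by rw [← ha', ← hb']; exact hf) ε hε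
        intro z hz
        obtain ⟨h1, h2, h3⟩ := Finset.mem_filter.1 hz
        exact ⟨(hZ z h1).1, h2, h3⟩
      have hcov : Z ⊆ (Z.filter fun z => (a + b * z ^ γ) * q.eval (z ^ γ) = 0) ∪
          ((Z.filter fun z => 0 < a' + b' * z ^ γ ∧ g.eval z =
            1 * (z ^ ((α : ℝ) / 2) * (a' + b' * z ^ γ) ^ (1 / 2 : ℝ) * q.eval (z ^ γ))) ∪
          (Z.filter fun z => 0 < a' + b' * z ^ γ ∧ g.eval z =
            (-1) * (z ^ ((α : ℝ) / 2) * (a' + b' * z ^ γ) ^ (1 / 2 : ℝ) * q.eval (z ^ γ)))) := by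
        intro z hz
        obtain ⟨hz1, hz2⟩ := hZ z hz
        by_cases h0 : (a + b * z ^ γ) * q.eval (z ^ γ) = 0
        · exact Finset.mem_union_left _ (Finset.mem_filter.2 ⟨hz, h0⟩)
        · apply Finset.mem_union_right
          have hq0 : q.eval (z ^ γ) ≠ 0 := right_ne_zero_of_mul h0
          have hq2 : 0 < q.eval (z ^ γ) ^ 2 := by positivity
          have hzα : 0 < z ^ α := pow_pos hz1 α
          have hne : a' + b' * z ^ γ ≠ 0 := by
            intro h
            apply h0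
            rw [ha', hb']
            have : -(c * a') + -(c * b') * z ^ γ = -c * (a' + b' * z ^ γ) := by ring
            rw [this, h]; ring
          rw [ff_eval, ha', hb'] at hz2
          have hg2 : g.eval z ^ 2 = z ^ α * ((a' + b' * z ^ γ) * q.eval (z ^ γ) ^ 2) := by
            have h3 : c * (g.eval z ^ 2 - z ^ α * ((a' + b' * z ^ γ) * q.eval (z ^ γ) ^ 2)) = 0 := by
              linear_combination hz2
            have := (mul_eq_zero.1 h3).resolve_left hc
            linarith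
          have hpos : 0 < a' + b' * z ^ γ := by
            rcases lt_or_gt_of_ne hne with h | h
            · exfalso
              have h4 : z ^ α * ((a' + b' * z ^ γ) * q.eval (z ^ γ) ^ 2) < 0 :=
                mul_neg_of_pos_of_neg hzα (mul_neg_of_neg_of_pos h hq2)
              have h5 := sq_nonneg (g.eval z)
              linarith
            · exact h
          have h4 : (z ^ ((α : ℝ) / 2)) ^ 2 = z ^ α := by
            rw [← Real.rpow_natCast, ← Real.rpow_mul hz1.le]
            have : (α : ℝ) / 2 * (2 : ℕ) = α := by push_cast; ring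
            rw [this, Real.rpow_natCast]
          have h5 : ((a' + b' * z ^ γ) ^ (1 / 2 : ℝ)) ^ 2 = a' + b' * z ^ γ := by
            rw [← Real.rpow_natCast, ← Real.rpow_mul hpos.le]
            norm_num
          have h6 : g.eval z ^ 2 = (z ^ ((α : ℝ) / 2) * (a' + b' * z ^ γ) ^ (1 / 2 : ℝ) *
              q.eval (z ^ γ)) ^ 2 := by
            rw [mul_pow, mul_pow, h4, h5, hg2]; ring
          rcases sq_eq_sq_iff_eq_or_eq_neg.1 h6 with h | h
          · exact Finset.mem_union_left _ (Finset.mem_filter.2 ⟨hz, hpos, by rw [one_mul]; exact h⟩)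
          · exact Finset.mem_union_right _
              (Finset.mem_filter.2 ⟨hz, hpos, by rw [neg_one_mul]; exact h⟩)
      have h1 := hsplit 1 (by norm_num)
      have h2 := hsplit (-1) (by norm_num)
      have h3 := Finset.card_le_card hcov
      have h4 := h3.trans (Finset.card_union_le _ _)
      have h5 := Finset.card_union_le (Z.filter fun z => 0 < a' + b' * z ^ γ ∧ g.eval z =
            1 * (z ^ ((α : ℝ) / 2) * (a' + b' * z ^ γ) ^ (1 / 2 : ℝ) * q.eval (z ^ γ)))
          (Z.filter fun z => 0 < a' + b' * z ^ γ ∧ g.eval z =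
            (-1) * (z ^ ((α : ℝ) / 2) * (a' + b' * z ^ γ) ^ (1 / 2 : ℝ) * q.eval (z ^ γ)))
      omega

end H721SOS
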