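import Mathlib

/-!
Zeros of `∑ g_i y ^ (e_i) + y ^ μ (a + b y) ^ ν Q(y)` on `y > 0`, `a + b y > 0`.
-/

set_option autoImplicit false

namespace H721SOS

open Finset Set

/-- the domain -/
def Dom (a b : ℝ) : Set ℝ := {y | 0 < y ∧ 0 < a + b * y}

theorem dom_seg {a b x z t : ℝ} (hx : x ∈ Dom a b) (hz : z ∈ Dom a b) (h1 : x ≤ t) (h2 : t ≤ z) :
    t ∈ Dom a b := by
  refine ⟨lt_of_lt_of_le hx.1 h1, ?_⟩
  rcases le_total 0 b with hb | hb
  · nlinarith [hx.2, mul_le_mul_of_nonneg_left h1 hb]
  · nlinarith [hz.2, mul_le_mul_of_nonpos_left h2 hb]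

/-- finite Rolle -/
theorem rolle_finset {a b : ℝ} (ψ ψ' : ℝ → ℝ) (hd : ∀ y ∈ Dom a b, HasDerivAt ψ (ψ' y) y)
    (Z : Finset ℝ) (hZ : ∀ z ∈ Z, z ∈ Dom a b ∧ ψ z = 0) :
    ∃ Z' : Finset ℝ, (∀ z ∈ Z', z ∈ Dom a b ∧ ψ' z = 0) ∧ Z.card ≤ Z'.card + 1 := by
  obtain ⟨m, hm⟩ : ∃ m, Z.card = m := ⟨_, rfl⟩
  rcases m with _ | m
  · exact ⟨∅, by simp, by omega⟩
  let e := Z.orderEmbOfFin hm
  have he : ∀ i, e i ∈ Z := fun i => Finset.orderEmbOfFin_mem Z hm i
  have hlt : ∀ i : Fin m, e i.castSucc < e i.succ := fun i =>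
    e.strictMono (Fin.castSucc_lt_succ)
  have key : ∀ i : Fin m, ∃ c, e i.castSucc < c ∧ c < e i.succ ∧ ψ' c = 0 := by
    intro i
    have h1 := hZ _ (he i.castSucc)
    have h2 := hZ _ (he i.succ)
    have hin : ∀ t ∈ Set.Icc (e i.castSucc) (e i.succ), t ∈ Dom a b := fun t ht =>
      dom_seg h1.1 h2.1 ht.1 ht.2
    obtain ⟨c, hc, hc'⟩ := exists_hasDerivAt_eq_zero (f := ψ) (f' := ψ') (hlt i)
      (fun t ht => (hd t (hin t ht)).continuousAt.continuousWithinAt) (by rw [h1.2, h2.2])
      (fun t ht => hd t (hin t ⟨ht.1.le, ht.2.le⟩))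
    exact ⟨c, hc.1, hc.2, hc'⟩
  choose c hc1 hc2 hc3 using key
  have hmono : StrictMono c := by
    intro i j hij
    have h3 : e i.succ ≤ e j.castSucc := by
      apply e.monotone
      rw [Fin.le_iff_val_le_val, Fin.val_succ, Fin.val_castSucc]
      exact hij
    exact (hc2 i).trans_le (h3.trans (hc1 j).le)
  refine ⟨Finset.univ.image c, ?_, ?_⟩
  · intro z hz
    obtain ⟨i, _, rfl⟩ := Finset.mem_image.1 hz
    exact ⟨dom_seg (hZ _ (he i.castSucc)).1 (hZ _ (he i.succ)).1 (hc1 i).le (hc2 i).le, hc3 i⟩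
  · rw [Finset.card_image_of_injective _ hmono.injective, Finset.card_univ, Fintype.card_fin, hm]

/-- the main lemma -/
theorem zeros_bound (a b : ℝ) : ∀ (T k : ℕ) (ι : Type) (s : Finset ι) (g e : ι → ℝ) (μ ν : ℝ)
    (Q : Polynomial ℝ), s.card = T → Q.natDegree ≤ k → ∀ Z : Finset ℝ,
    (∀ z ∈ Z, z ∈ Dom a b ∧
      (∑ i ∈ s, g i * z ^ e i) + z ^ μ * (a + b * z) ^ ν * Q.eval z = 0) →
    2 * T + k < Z.card →
    ∀ y ∈ Dom a b, (∑ i ∈ s, g i * y ^ e i) + y ^ μ * (a + b * y) ^ ν * Q.eval y = 0 := by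
  classical
  intro T
  induction T with
  | zero =>
    intro k ι s g e μ ν Q hs hQ Z hZ hc y hy
    rw [Finset.card_eq_zero] at hs
    subst hs
    have hQ0 : Q = 0 := by
      by_contra hne
      have hsub : Z ⊆ Q.roots.toFinset := by
        intro z hz
        obtain ⟨⟨h1, h2⟩, h3⟩ := hZ z hz
        rw [Multiset.mem_toFinset, Polynomial.mem_roots hne, Polynomial.IsRoot.def]
        rw [Finset.sum_empty, zero_add] at h3
        have h4 : z ^ μ ≠ 0 := (Real.rpow_pos_of_pos h1 _).ne'
        have h5 : (a + b * z) ^ ν ≠ 0 := (Real.rpow_pos_of_pos h2 _).ne'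
        rcases mul_eq_zero.1 h3 with h | h
        · exact absurd h (mul_ne_zero h4 h5)
        · exact h
      have h1 := Finset.card_le_card hsub
      have h2 := Multiset.toFinset_card_le Q.roots
      have h3 := Polynomial.card_roots' Q
      omega
    rw [hQ0]
    simp
  | succ T ih =>
    intro k ι s g e μ ν Q hs hQ Z hZ hc
    obtain ⟨i, hi⟩ : s.Nonempty := Finset.card_pos.1 (by omega)
    -- the function times `y ^ (- e i)`
    set Q1 : Polynomial ℝ := (Polynomial.C (μ - e i) * (Polynomial.C a + Polynomial.C b *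
      Polynomial.X) + Polynomial.C (ν * b) * Polynomial.X) * Q +
      Polynomial.X * (Polynomial.C a + Polynomial.C b * Polynomial.X) * Polynomial.derivative Q
      with hQ1
    have hQ1d : Q1.natDegree ≤ k + 1 := by
      have hl : (Polynomial.C a + Polynomial.C b * Polynomial.X : Polynomial ℝ).natDegree ≤ 1 := by
        refine (Polynomial.natDegree_add_le _ _).trans (max_le (by simp) ?_)
        exact (Polynomial.natDegree_C_mul_le _ _).trans (by simp)
      rw [hQ1]
      refine (Polynomial.natDegree_add_le _ _).trans (max_le ?_ ?_)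
      · refine (Polynomial.natDegree_mul_le).trans ?_
        have h1 : (Polynomial.C (μ - e i) * (Polynomial.C a + Polynomial.C b * Polynomial.X) +
            Polynomial.C (ν * b) * Polynomial.X : Polynomial ℝ).natDegree ≤ 1 := by
          refine (Polynomial.natDegree_add_le _ _).trans (max_le ?_ ?_)
          · exact (Polynomial.natDegree_C_mul_le _ _).trans hl
          · exact (Polynomial.natDegree_C_mul_le _ _).trans (by simp)
        omega
      · by_cases hQ' : Polynomial.derivative Q = 0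
        · rw [hQ', mul_zero]; simp
        · have hQpos : Q.natDegree ≠ 0 := by
            intro h0
            apply hQ'
            rw [Polynomial.eq_C_of_natDegree_eq_zero h0]
            simp
          have hder : (Polynomial.derivative Q).natDegree < Q.natDegree :=
            Polynomial.natDegree_derivative_lt hQpos
          have h1 : (Polynomial.X * (Polynomial.C a + Polynomial.C b * Polynomial.X) :
              Polynomial ℝ).natDegree ≤ 2 := by
            refine (Polynomial.natDegree_mul_le).trans ?_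
            have : (Polynomial.X : Polynomial ℝ).natDegree ≤ 1 := by simp
            omega
          refine (Polynomial.natDegree_mul_le).trans ?_
          omega
    have hder : ∀ y ∈ Dom a b, HasDerivAt
        (fun y => (∑ j ∈ s, g j * y ^ (e j - e i)) + y ^ (μ - e i) * (a + b * y) ^ ν * Q.eval y)
        ((∑ j ∈ s.erase i, (g j * (e j - e i)) * y ^ (e j - e i - 1)) +
          y ^ (μ - e i - 1) * (a + b * y) ^ (ν - 1) * Q1.eval y) y := by
      rintro y ⟨hy1, hy2⟩
      have d1 : HasDerivAt (fun y => ∑ j ∈ s, g j * y ^ (e j - e i))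
          (∑ j ∈ s, g j * ((e j - e i) * y ^ (e j - e i - 1))) y := by
        apply HasDerivAt.fun_sum
        intro j _
        exact (Real.hasDerivAt_rpow_const (Or.inl hy1.ne')).const_mul (g j)
      have d2 : HasDerivAt (fun y => y ^ (μ - e i)) ((μ - e i) * y ^ (μ - e i - 1)) y :=
        Real.hasDerivAt_rpow_const (Or.inl hy1.ne')
      have d3 : HasDerivAt (fun y : ℝ => a + b * y) b y := by
        simpa using ((hasDerivAt_id y).const_mul b).const_add a
      have d4 : HasDerivAt (fun y : ℝ => (a + b * y) ^ ν) (b * ν * (a + b * y) ^ (ν - 1)) y :=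
        d3.rpow_const (Or.inl hy2.ne')
      have d5 := Q.hasDerivAt y
      have d6 := d1.add ((d2.mul d4).mul d5)
      refine d6.congr_deriv ?_
      have hsum : ∑ j ∈ s, g j * ((e j - e i) * y ^ (e j - e i - 1)) =
          ∑ j ∈ s.erase i, (g j * (e j - e i)) * y ^ (e j - e i - 1) := by
        rw [← Finset.add_sum_erase s _ hi, sub_self, zero_mul, mul_zero, zero_add]
        refine Finset.sum_congr rfl fun j _ => ?_
        ring
      rw [hsum]
      congr 1
      have r1 : y ^ (μ - e i) = y ^ (μ - e i - 1) * y := by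
        rw [← Real.rpow_add_one hy1.ne']; congr 1; ring
      have r2 : (a + b * y) ^ ν = (a + b * y) ^ (ν - 1) * (a + b * y) := by
        rw [← Real.rpow_add_one hy2.ne']; congr 1; ring
      rw [hQ1]
      simp only [Polynomial.eval_add, Polynomial.eval_mul, Polynomial.eval_C, Polynomial.eval_X,
        Pi.mul_apply]
      rw [r1, r2]
      ring
    have hZ2 : ∀ z ∈ Z, z ∈ Dom a b ∧
        (∑ j ∈ s, g j * z ^ (e j - e i)) + z ^ (μ - e i) * (a + b * z) ^ ν * Q.eval z = 0 := by
      intro z hz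
      obtain ⟨h1, h2⟩ := hZ z hz
      refine ⟨h1, ?_⟩
      have h3 : (∑ j ∈ s, g j * z ^ (e j - e i)) + z ^ (μ - e i) * (a + b * z) ^ ν * Q.eval z =
          z ^ (-e i) * ((∑ j ∈ s, g j * z ^ e j) + z ^ μ * (a + b * z) ^ ν * Q.eval z) := by
        rw [mul_add, Finset.mul_sum]
        congr 1
        · refine Finset.sum_congr rfl fun j _ => ?_
          rw [sub_eq_add_neg, Real.rpow_add h1.1]; ring
        · rw [sub_eq_add_neg, Real.rpow_add h1.1]; ring
      rw [h3, h2, mul_zero]
    obtain ⟨Z', hZ', hcard⟩ := rolle_finset _ _ hder Z hZ2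
    have hsc : (s.erase i).card = T := by rw [Finset.card_erase_of_mem hi, hs]; rfl
    have hvan := ih (k + 1) ι (s.erase i) (fun j => g j * (e j - e i)) (fun j => e j - e i - 1)
      (μ - e i - 1) (ν - 1) Q1 hsc hQ1d Z' hZ' (by omega)
    obtain ⟨z0, hz0⟩ : Z.Nonempty := Finset.card_pos.1 (by omega)
    intro y hy
    have hz0' := hZ2 z0 hz0
    -- constancy
    have hconst : (∑ j ∈ s, g j * y ^ (e j - e i)) +
        y ^ (μ - e i) * (a + b * y) ^ ν * Q.eval y = 0 := by
      have key : ∀ p q : ℝ, p ∈ Dom a b → q ∈ Dom a b → p < q →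
          (fun y => (∑ j ∈ s, g j * y ^ (e j - e i)) +
            y ^ (μ - e i) * (a + b * y) ^ ν * Q.eval y) q =
          (fun y => (∑ j ∈ s, g j * y ^ (e j - e i)) +
            y ^ (μ - e i) * (a + b * y) ^ ν * Q.eval y) p := by
        intro p q hp hq hpq
        obtain ⟨c, hc1, hc2⟩ := exists_hasDerivAt_eq_slope (fun y => (∑ j ∈ s, g j * y ^ (e j - e i)) +
            y ^ (μ - e i) * (a + b * y) ^ ν * Q.eval y) _ hpq
          (fun t ht => (hder t (dom_seg hp hq ht.1 ht.2)).continuousAt.continuousWithinAt)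
          (fun t ht => hder t (dom_seg hp hq ht.1.le ht.2.le))
        have h0 := hvan c (dom_seg hp hq hc1.1.le hc1.2.le)
        rw [h0, eq_comm, div_eq_zero_iff] at hc2
        rcases hc2 with h | h
        · linarith
        · exfalso; linarith
      rcases lt_trichotomy z0 y with h | h | h
      · exact (key z0 y hz0'.1 hy h).trans hz0'.2
      · rw [← h]; exact hz0'.2
      · exact (key y z0 hy hz0'.1 h).symm.trans hz0'.2
    have h3 : (∑ j ∈ s, g j * y ^ (e j - e i)) + y ^ (μ - e i) * (a + b * y) ^ ν * Q.eval y =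
        y ^ (-e i) * ((∑ j ∈ s, g j * y ^ e j) + y ^ μ * (a + b * y) ^ ν * Q.eval y) := by
      rw [mul_add, Finset.mul_sum]
      congr 1
      · refine Finset.sum_congr rfl fun j _ => ?_
        rw [sub_eq_add_neg, Real.rpow_add hy.1]; ring
      · rw [sub_eq_add_neg, Real.rpow_add hy.1]; ring
    have h4 : y ^ (-e i) ≠ 0 := (Real.rpow_pos_of_pos hy.1 _).ne'
    have h5 : y ^ (-e i) * ((∑ j ∈ s, g j * y ^ e j) + y ^ μ * (a + b * y) ^ ν * Q.eval y) = 0 := by
      rw [← h3]; exact hconst
    exact (mul_eq_zero.1 h5).resolve_left h4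

end H721SOS
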