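import Pool.Agent.H721R3.SOS.Pos

/-!
All real zeros of `c g ^ 2 + (a X ^ α + b X ^ (α + γ)) q(X ^ γ) ^ 2`.
-/

set_option autoImplicit false

namespace H721SOS

open Polynomial

theorem total_bound (c a b : ℝ) (α γ : ℕ) (hγ : 0 < γ) (g q : ℝ[X])
    (hf : ff c a b α γ g q ≠ 0) :
    (ff c a b α γ g q).roots.toFinset.card ≤ 8 * g.support.card + 6 * q.natDegree + 3 := by
  classical
  set R := (ff c a b α γ g q).roots.toFinset with hR
  have hRm : ∀ z ∈ R, (ff c a b α γ g q).eval z = 0 := by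
    intro z hz
    rw [hR, Multiset.mem_toFinset, mem_roots hf, IsRoot.def] at hz
    exact hz
  have hP := pos_bound c a b α γ hγ g q hf (R.filter fun z => 0 < z)
    (fun z hz => ⟨(Finset.mem_filter.1 hz).2, hRm z (Finset.mem_filter.1 hz).1⟩)
  -- the negative zeros
  have hev : ∀ x : ℝ, (ff c ((-1) ^ α * a) ((-1) ^ (α + γ) * b) α γ (g.comp (C (-1) * X))
      (q.comp (C ((-1) ^ γ) * X))).eval x = (ff c a b α γ g q).eval (-x) := by
    intro x
    rw [ff_eval, ff_eval]
    simp only [eval_comp, eval_mul, eval_C, eval_X]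
    have h1 : (-x) ^ α = (-1) ^ α * x ^ α := by rw [neg_eq_neg_one_mul, mul_pow]
    have h2 : (-x) ^ γ = (-1) ^ γ * x ^ γ := by rw [neg_eq_neg_one_mul, mul_pow]
    rw [h1, h2, pow_add, neg_one_mul]
    ring
  have hne : ff c ((-1) ^ α * a) ((-1) ^ (α + γ) * b) α γ (g.comp (C (-1) * X))
      (q.comp (C ((-1) ^ γ) * X)) ≠ 0 := by
    intro h
    apply hf
    apply Polynomial.funext
    intro x
    have := hev (-x)
    rw [h, neg_neg, eval_zero] at this
    rw [← this, eval_zero]
  have hN := pos_bound c ((-1) ^ α * a) ((-1) ^ (α + γ) * b) α γ hγ (g.comp (C (-1) * X))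
    (q.comp (C ((-1) ^ γ) * X)) hne ((R.filter fun z => z < 0).image fun z => -z) (by
      intro y hy
      obtain ⟨z, hz, rfl⟩ := Finset.mem_image.1 hy
      obtain ⟨h1, h2⟩ := Finset.mem_filter.1 hz
      refine ⟨by linarith, ?_⟩
      rw [hev, neg_neg]
      exact hRm z h1)
  rw [Finset.card_image_of_injective _ neg_injective] at hN
  have hg : (g.comp (C (-1) * X)).support.card ≤ g.support.card := by
    apply Finset.card_le_card
    intro i hi
    rw [mem_support_iff, comp_C_mul_X_coeff] at hi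
    rw [mem_support_iff]
    exact left_ne_zero_of_mul hi
  have hq : (q.comp (C ((-1 : ℝ) ^ γ) * X)).natDegree ≤ q.natDegree := by
    refine (natDegree_comp_le).trans ?_
    have : (C ((-1 : ℝ) ^ γ) * X).natDegree ≤ 1 := (natDegree_C_mul_le _ _).trans (by simp)
    calc q.natDegree * (C ((-1 : ℝ) ^ γ) * X).natDegree ≤ q.natDegree * 1 :=
          Nat.mul_le_mul_left _ this
      _ = q.natDegree := Nat.mul_one _
  have hO : (R.filter fun z => z = 0).card ≤ 1 := by
    refine (Finset.card_le_card (t := {0}) ?_).trans (by simp)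
    intro z hz
    rw [Finset.mem_singleton]
    exact (Finset.mem_filter.1 hz).2
  have hcov : R ⊆ (R.filter fun z => 0 < z) ∪ ((R.filter fun z => z < 0) ∪
      (R.filter fun z => z = 0)) := by
    intro z hz
    simp only [Finset.mem_union, Finset.mem_filter]
    rcases lt_trichotomy z 0 with h | h | h
    · right; left; exact ⟨hz, h⟩
    · right; right; exact ⟨hz, h⟩
    · left; exact ⟨hz, h⟩
  have h1 := (Finset.card_le_card hcov).trans (Finset.card_union_le _ _)
  have h2 := Finset.card_union_le (R.filter fun z => z < 0) (R.filter fun z => z = 0)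
  omega

/-- a polynomial with at most two monomials -/
theorem two_terms (r : ℝ[X]) (h : r.support.card ≤ 2) :
    ∃ (a b : ℝ) (α γ : ℕ), 0 < γ ∧ r = C a * X ^ α + C b * X ^ (α + γ) := by
  obtain h | h | h : r.support.card = 0 ∨ r.support.card = 1 ∨ r.support.card = 2 := by omega
  · rw [Finset.card_eq_zero, support_eq_empty] at h
    exact ⟨0, 0, 0, 1, one_pos, by rw [h]; simp⟩
  · obtain ⟨k, x, _, rfl⟩ := card_support_eq_one.1 h
    exact ⟨x, 0, k, 1, one_pos, by simp⟩
  · obtain ⟨k, m, hkm, x, y, _, _, rfl⟩ := card_support_eq_two.1 h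
    refine ⟨x, y, k, m - k, by omega, ?_⟩
    rw [Nat.add_sub_cancel' hkm.le]

theorem sos_bound (ι : Type) [DecidableEq ι] (s : Finset ι) (c : ι → ℝ) (p : ι → ℝ[X]) (j : ι)
    (hj : j ∈ s) (h2 : (∑ i ∈ s.erase j, C (c i) * p i ^ 2).support.card ≤ 2)
    (hne : (∑ i ∈ s, C (c i) * p i ^ 2) ≠ 0) :
    (∑ i ∈ s, C (c i) * p i ^ 2).roots.toFinset.card ≤ 8 * (p j).support.card + 3 ∧
    (∑ i ∈ s, C (c i) * p i ^ 2).roots.toFinset.card ≤ 11 * ∑ i ∈ s, (p i).support.card := by
  obtain ⟨a, b, α, γ, hγ, hr⟩ := two_terms _ h2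
  have hsum : (∑ i ∈ s, C (c i) * p i ^ 2) = ff (c j) a b α γ (p j) 1 := by
    rw [← Finset.add_sum_erase s _ hj, hr]
    unfold ff
    simp
  have hb : (∑ i ∈ s, C (c i) * p i ^ 2).roots.toFinset.card ≤ 8 * (p j).support.card + 3 := by
    rw [hsum] at hne ⊢
    have := total_bound (c j) a b α γ hγ (p j) 1 hne
    simpa using this
  refine ⟨hb, hb.trans ?_⟩
  have h1 : (p j).support.card ≤ ∑ i ∈ s, (p i).support.card :=
    Finset.single_le_sum (f := fun i => (p i).support.card) (fun i _ => Nat.zero_le _) hj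
  have h3 : 1 ≤ ∑ i ∈ s, (p i).support.card := by
    by_contra hcon
    have h0 : ∑ i ∈ s, (p i).support.card = 0 := by omega
    apply hne
    apply Finset.sum_eq_zero
    intro i hi
    have := Finset.sum_eq_zero_iff.1 h0 i hi
    rw [Finset.card_eq_zero, support_eq_empty] at this
    rw [this]; simp
  omega

end H721SOS
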